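import Mathlib

set_option autoImplicit false

namespace Pool.Agent.Results.MP_39a3b1_gt.NotBall

open Set Metric MeasureTheory

/-- The central projection `C(K,x) ∩ x^⊥` of `K` from `x`. -/
def proj {n : ℕ} (K : Set (EuclideanSpace ℝ (Fin n))) (x : EuclideanSpace ℝ (Fin n)) :
    Set (EuclideanSpace ℝ (Fin n)) :=
  {z | (∃ y ∈ K, ∃ l : ℝ, 0 ≤ l ∧ z = x + l • (y - x)) ∧ inner ℝ z x = 0}

theorem result (n : ℕ) : ∃ K : Set (EuclideanSpace ℝ (Fin (n + 2))), IsCompact K ∧ Convex ℝ K ∧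
    (interior K).Nonempty ∧ K ⊆ ball 0 1 ∧
    (∀ x, ‖x‖ = 1 → (∃ g : EuclideanSpace ℝ (Fin (n + 2)) ≃ᵢ EuclideanSpace ℝ (Fin (n + 2)),
      g '' proj K x = proj K (-x)) ∧ μH[n + 1] (proj K x) = μH[n + 1] (proj K (-x))) ∧
    ¬ ∃ c r, K = closedBall c r := by
  let K : Set (EuclideanSpace ℝ (Fin (n + 2))) := closedBall 0 (1 / 2) ∩ ({y | y 0 ≤ 1 / 4} ∩ {y | -(1 / 4) ≤ y 0})
  have s : ∀ y ∈ K, -y ∈ K := fun y hy => ⟨by simpa using hy.1, by
    have := hy.2.2; simp at this ⊢; linarith, by have := hy.2.1; simp at this ⊢; linarith⟩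
  have p : ∀ x, ∀ z ∈ proj K x, -z ∈ proj K (-x) := fun x z ⟨⟨y, y1, l, l0, e⟩, h⟩ =>
    ⟨⟨-y, s y y1, l, l0, by rw [e]; module⟩, by simpa using h⟩
  have q : ∀ x, IsometryEquiv.neg _ '' proj K x = proj K (-x) := fun x => Subset.antisymm (by rintro _ ⟨z, hz, rfl⟩; exact p x z hz)
    fun z hz => ⟨-z, by simpa using p _ z hz, neg_neg z⟩
  have L : IsLinearMap ℝ fun y : EuclideanSpace ℝ (Fin (n + 2)) => y 0 := ⟨fun _ _ => rfl, fun _ _ => rfl⟩
  refine ⟨K, (isCompact_closedBall _ _).inter_right ((isClosed_le (by fun_prop) continuous_const).inter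
    (isClosed_le continuous_const (by fun_prop))), (convex_closedBall _ _).inter ((convex_halfSpace_le L _).inter
    (convex_halfSpace_ge L _)), ⟨0, mem_interior.2 ⟨ball 0 (1 / 4), fun y hy => ?_, isOpen_ball, by simp⟩⟩,
    inter_subset_left.trans (closedBall_subset_ball (by norm_num)),
    fun x _ => ⟨⟨_, q x⟩, by rw [← q, IsometryEquiv.hausdorffMeasure_image]⟩, fun ⟨c, r, e⟩ => ?_⟩
  · have e := abs_le.1 ((PiLp.norm_apply_le y 0).trans (mem_ball_zero_iff.1 hy).le)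
    exact ⟨ball_subset_closedBall (ball_subset_ball (by norm_num) hy), e.2, e.1⟩
  have a : EuclideanSpace.single (1 : Fin (n + 2)) (1 / 2 : ℝ) ∈ K := ⟨by simp, by simp, by simp⟩
  have a1 := dist_triangle_right _ _ c |>.trans (add_le_add (e.subset a) (e.subset (s _ a)))
  rw [dist_eq_norm, sub_neg_eq_add, ← two_smul ℝ, norm_smul] at a1
  simp at a1
  have r0 : 0 ≤ r := by linarith
  have b1 := (e.symm.subset (show c + EuclideanSpace.single 0 r ∈ _ by simp [abs_of_nonneg r0])).2.1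
  have b2 := (e.symm.subset (show c - EuclideanSpace.single 0 r ∈ _ by simp [abs_of_nonneg r0])).2.2
  simp at b1 b2
  linarith

end Pool.Agent.Results.MP_39a3b1_gt.NotBall
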